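import Pool.Agent.P8H48.LV.Stm
import Pool.Agent.Z125.UN.Dim

/-!
# Project LV, package BIR
-/

set_option autoImplicit false

open CategoryTheory AlgebraicGeometry MvPolynomial Pool.Agent.Y116.UV Pool.Agent.Z125.UN
open Pool.Agent.P8H48.LV

namespace Pool.Agent.P8H71.LV

lemma dim_loc {A : Type} [CommRing A] (w : A) :
    ringKrullDim (Localization.Away w) ≤ ringKrullDim A := by
  rw [← PrimeSpectrum.topologicalKrullDim_eq_ringKrullDim,
    ← PrimeSpectrum.topologicalKrullDim_eq_ringKrullDim]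
  exact (PrimeSpectrum.localization_away_isOpenEmbedding (Localization.Away w)
    w).isInducing.topologicalKrullDim_le

lemma le_of_succ_le {x : WithBot ℕ∞} {d : ℕ} (h : x + 1 ≤ ((d + 1 : ℕ) : WithBot ℕ∞)) :
    x ≤ (d : WithBot ℕ∞) := by
  rw [ENat.WithBot.add_one_le_natCast_iff] at h
  have h3 : ((d + 1 : ℕ) : WithBot ℕ∞) = (d : WithBot ℕ∞) + 1 := by push_cast; rfl
  rw [h3] at h
  exact ENat.WithBot.lt_add_one_iff.mp h

/-- the quotient of a domain by an element -/
lemma dim_quot_span {Q : Type} [CommRing Q] [IsDomain Q] {d : ℕ}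
    (h : ringKrullDim Q ≤ ((d + 1 : ℕ) : WithBot ℕ∞)) (g : Q) (hg : g ≠ 0) :
    ringKrullDim (Q ⧸ Ideal.span {g}) ≤ (d : WithBot ℕ∞) :=
  le_of_succ_le ((ringKrullDim_quotient_succ_le_of_nonZeroDivisor
    (mem_nonZeroDivisors_of_ne_zero hg)).trans h)

/-- a prime ideal of a polynomial ring which is not principal -/
lemma dim_prime {k : Type} [Field k] {d : ℕ} (I : Ideal (MvPolynomial (Fin (d + 1 + 1)) k))
    {f : MvPolynomial (Fin (d + 1 + 1)) k} (hf : Prime f) (hfI : f ∈ I)
    (hne : I ≠ Ideal.span {f}) : ringKrullDim (MvPolynomial (Fin (d + 1 + 1)) k ⧸ I) ≤ (d : WithBot ℕ∞) := by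
  have hle : Ideal.span {f} ≤ I := (Ideal.span_singleton_le_iff_mem _).2 hfI
  obtain ⟨b, hbI, hb⟩ : ∃ b ∈ I, b ∉ Ideal.span {f} := by
    by_contra hcon
    push Not at hcon
    exact hne (le_antisymm hcon hle)
  have hpr : (Ideal.span {f}).IsPrime := (Ideal.span_singleton_prime hf.ne_zero).2 hf
  have hdom : IsDomain (MvPolynomial (Fin (d + 1 + 1)) k ⧸ Ideal.span {f}) :=
    Ideal.Quotient.isDomain _
  have hb0 : (Ideal.Quotient.mk (Ideal.span {f}) b) ≠ 0 := fun h =>
    hb (Ideal.Quotient.eq_zero_iff_mem.1 h)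
  have hne0 : Ideal.span {f} ≠ ⊥ := by
    intro h
    exact hf.ne_zero (Ideal.span_singleton_eq_bot.1 h)
  have h1 := dim_quot_span (dim_quot (Ideal.span {f}) hne0) _ hb0
  refine le_trans ?_ h1
  have hker : ∀ a ∈ Ideal.span {Ideal.Quotient.mk (Ideal.span {f}) b},
      Ideal.Quotient.factor hle a = 0 := by
    intro a ha
    obtain ⟨c, rfl⟩ := Ideal.mem_span_singleton'.1 ha
    rw [map_mul, Ideal.Quotient.factor_mk, Ideal.Quotient.eq_zero_iff_mem.2 hbI, mul_zero]
  exact ringKrullDim_le_of_surjective (Ideal.Quotient.lift _ (Ideal.Quotient.factor hle) hker)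
    (Ideal.Quotient.lift_surjective_of_surjective _ hker (Ideal.Quotient.factor_surjective hle))

/-- package BIR -/
theorem bir : S_BIR := by
  intro hinj k _ _ P hP n d hH h2 h3 B _ _ _ _ hB
  obtain ⟨x, hx⟩ := exists_gens k B (d + 1) hB
  obtain ⟨w, hw, φ, g, hg, hs⟩ := exists_emb x hx
  refine ⟨w, hw, ?_⟩
  have hpow : Submonoid.powers w ≤ nonZeroDivisors B := powers_le_nonZeroDivisors_of_noZeroDivisors hw
  have hdomL : IsDomain (Localization.Away w) := IsLocalization.isDomain_localization hpow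
  have hftL : Algebra.FiniteType k (Localization.Away w) :=
    Algebra.FiniteType.trans (S := B) inferInstance inferInstance
  have hdimL : ringKrullDim (Localization.Away w) ≤ ((d + 1 : ℕ) : WithBot ℕ∞) := (dim_loc w).trans hB
  obtain ⟨I, hI⟩ : ∃ I : Ideal (MvPolynomial (Fin (d + 1 + 1)) k), I = RingHom.ker φ := ⟨_, rfl⟩
  have hIp : I.IsPrime := by
    rw [hI]
    exact RingHom.ker_isPrime _
  have hI0 : I ≠ ⊥ := by
    intro h
    have h4 : Function.Injective φ := by
      rw [injective_iff_map_eq_zero]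
      intro a ha
      have h5 : a ∈ I := by
        rw [hI]
        exact ha
      rw [h] at h5
      exact h5
    have h5 := hinj k (Localization.Away w) (d + 1 + 1) (d + 1) φ h4 hdimL
    omega
  have hdomQ : IsDomain (MvPolynomial (Fin (d + 1 + 1)) k ⧸ I) := Ideal.Quotient.isDomain I
  -- the property for `Q`
  have hQ : P n (aff k (MvPolynomial (Fin (d + 1 + 1)) k ⧸ I)) := by
    obtain ⟨f, hfI, hf⟩ := hIp.exists_mem_prime_of_ne_bot hI0
    by_cases hne : I = Ideal.span {f}
    · rw [hne]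
      exact hH f
    · exact h2 _ (dim_prime I hf hfI hne)
  have hgI : g ∉ I := by
    intro h
    rw [hI] at h
    have h4 : φ g = 0 := h
    rw [h4] at hg
    exact not_isUnit_zero hg
  obtain ⟨gq, hgq⟩ : ∃ gq : MvPolynomial (Fin (d + 1 + 1)) k ⧸ I, gq = Ideal.Quotient.mk I g :=
    ⟨_, rfl⟩
  have hgq0 : gq ≠ 0 := by
    rw [hgq]
    exact fun h => hgI (Ideal.Quotient.eq_zero_iff_mem.1 h)
  have hdimZ : ringKrullDim ((MvPolynomial (Fin (d + 1 + 1)) k ⧸ I) ⧸ Ideal.span {gq}) ≤
      (d : WithBot ℕ∞) := dim_quot_span (dim_quot I hI0) gq hgq0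
  -- the localisation
  have hU : P n (aff k (Localization.Away gq)) := by
    have ht := triple_away (R := k) gq
    rcases n with _ | m
    · exact hP.opened0 _ _ (ft_aff False) ht hQ
    · exact hP.opened m _ _ (ft_aff False) ht hQ (h3 m rfl _ hdimZ)
  -- the isomorphism
  subst hI
  let ψ : (MvPolynomial (Fin (d + 1 + 1)) k ⧸ RingHom.ker φ) →ₐ[k] Localization.Away w :=
    Ideal.kerLiftAlg φ
  have hψ : Function.Injective ψ := Ideal.kerLiftAlg_injective φ
  let _ : Algebra (MvPolynomial (Fin (d + 1 + 1)) k ⧸ RingHom.ker φ) (Localization.Away w) :=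
    ψ.toRingHom.toAlgebra
  have hloc : IsLocalization.Away gq (Localization.Away w) := by
    have hgq' : algebraMap (MvPolynomial (Fin (d + 1 + 1)) k ⧸ RingHom.ker φ)
        (Localization.Away w) gq = φ g := by
      rw [hgq]
      rfl
    refine ⟨?_, ?_, ?_⟩
    · rintro ⟨_, n, rfl⟩
      change IsUnit (algebraMap _ (Localization.Away w) (gq ^ n))
      rw [map_pow, hgq']
      exact hg.pow n
    · intro z
      obtain ⟨m, p, h⟩ := hs z
      refine ⟨(Ideal.Quotient.mk _ p, ⟨gq ^ m, m, rfl⟩), ?_⟩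
      change z * algebraMap _ (Localization.Away w) (gq ^ m) = φ p
      rw [map_pow, hgq', ← h, mul_comm]
    · intro x y hxy
      refine ⟨1, ?_⟩
      rw [hψ hxy]
  let e : Localization.Away gq ≃ₐ[MvPolynomial (Fin (d + 1 + 1)) k ⧸ RingHom.ker φ]
      Localization.Away w :=
    IsLocalization.algEquiv (Submonoid.powers gq) (Localization.Away gq) (Localization.Away w)
  let e2 : Localization.Away gq ≃ₐ[k] Localization.Away w :=
    AlgEquiv.ofRingEquiv (f := e.toRingEquiv) (by
      intro r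
      change e (algebraMap k (Localization.Away gq) r) = _
      rw [IsScalarTower.algebraMap_apply k (MvPolynomial (Fin (d + 1 + 1)) k ⧸ RingHom.ker φ)
        (Localization.Away gq), e.commutes]
      exact ψ.commutes r)
  have : Algebra.FiniteType k (Localization.Away gq) :=
    Algebra.FiniteType.trans (S := MvPolynomial (Fin (d + 1 + 1)) k ⧸ RingHom.ker φ)
      inferInstance inferInstance
  exact hP.iso n (ft_aff False) ⟨(affIso e2).symm⟩ hU

end Pool.Agent.P8H71.LV
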