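import Pool.Agent.P8H48.LV.Stm

/-!
# Project LV, package DBL: an affine scheme with doubled closed subscheme
-/

set_option autoImplicit false

open CategoryTheory AlgebraicGeometry CategoryTheory.Limits Pool.Agent.Y116.UV
open Pool.Agent.P8H48.LV

namespace Pool.Agent.P8H71.LV

section glue

variable {Y : Scheme.{0}} (U : Y.Opens)

instance : IsOpenImmersion (pushout.inl U.ι U.ι) :=
  inferInstanceAs (IsOpenImmersion (colimit.ι (span U.ι U.ι) WalkingSpan.left))

instance : IsOpenImmersion (pushout.inr U.ι U.ι) :=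
  inferInstanceAs (IsOpenImmersion (colimit.ι (span U.ι U.ι) WalkingSpan.right))

lemma inl_U (x : U.toScheme) : pushout.inl U.ι U.ι (U.ι x) = pushout.inr U.ι U.ι (U.ι x) := by
  rw [← Scheme.Hom.comp_apply, ← Scheme.Hom.comp_apply, pushout.condition]

lemma mem_U {y y' : Y} (h : pushout.inl U.ι U.ι y = pushout.inr U.ι U.ι y') : y' ∈ U := by
  obtain ⟨k, fi, fj, x, h1, h2⟩ := (Scheme.IsLocallyDirected.ι_eq_ι_iff (span U.ι U.ι)
    (i := WalkingSpan.left) (j := WalkingSpan.right) (xi := y) (xj := y')).1 h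
  rcases k with _ | (_ | _)
  · rw [Subsingleton.elim fj WalkingSpan.Hom.snd] at h2
    have h3 : U.ι x = y' := h2
    rw [← h3]
    exact x.2
  · have h3 : WidePushoutShape.Hom (some WalkingPair.left) (some WalkingPair.right) := fj
    cases h3
  · have h3 : WidePushoutShape.Hom (some WalkingPair.right) (some WalkingPair.left) := fi
    cases h3

lemma cover (x : (pushout U.ι U.ι : Scheme.{0})) :
    (∃ y, pushout.inl U.ι U.ι y = x) ∨ ∃ y, pushout.inr U.ι U.ι y = x := by
  obtain ⟨i, y, h⟩ := Scheme.IsLocallyDirected.ι_jointly_surjective (span U.ι U.ι) x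
  rcases i with _ | (_ | _)
  · left
    refine ⟨U.ι y, ?_⟩
    rw [← h]
    have h1 : colimit.ι (span U.ι U.ι) WalkingSpan.zero = U.ι ≫ pushout.inl U.ι U.ι :=
      (colimit.w (span U.ι U.ι) WalkingSpan.Hom.fst).symm
    change _ = colimit.ι (span U.ι U.ι) WalkingSpan.zero y
    rw [h1]
    rfl
  · exact Or.inl ⟨y, h⟩
  · exact Or.inr ⟨y, h⟩

end glue

/-- package DBL -/
theorem dbl : S_DBL := by
  intro R _ _ A _ _ _ I
  have hcl : IsClosedImmersion (affMap (Ideal.Quotient.mkₐ R I)).left :=
    closed_affMap _ (Ideal.Quotient.mkₐ_surjective R _)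
  obtain ⟨c, hc⟩ : ∃ c, c = (affMap (Ideal.Quotient.mkₐ R I)).left := ⟨_, rfl⟩
  rw [← hc] at hcl
  let U : (aff R A).left.Opens := ⟨(Set.range c)ᶜ, c.isClosedEmbedding.isClosed_range.isOpen_compl⟩
  have hUc : ∀ y, y ∈ U ↔ y ∉ Set.range c := fun y => Iff.rfl
  let X : Sch R := Over.mk (pushout.desc (aff R A).hom (aff R A).hom rfl : pushout U.ι U.ι ⟶ _)
  let j1 : aff R A ⟶ X := Over.homMk (pushout.inl U.ι U.ι) (pushout.inl_desc _ _ _)
  let j2 : aff R A ⟶ X := Over.homMk (pushout.inr U.ι U.ι) (pushout.inr_desc _ _ _)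
  have ho1 : IsOpenImmersion j1.left := inferInstanceAs (IsOpenImmersion (pushout.inl U.ι U.ι))
  have ho2 : IsOpenImmersion j2.left := inferInstanceAs (IsOpenImmersion (pushout.inr U.ι U.ι))
  have hcov : Set.range j1.left ∪ Set.range j2.left = Set.univ := by
    rw [Set.eq_univ_iff_forall]
    intro x
    exact cover U x
  have hrange : Set.range (affMap (Ideal.Quotient.mkₐ R I) ≫ j2).left = (Set.range j1.left)ᶜ := by
    have h1 : (affMap (Ideal.Quotient.mkₐ R I) ≫ j2).left = c ≫ pushout.inr U.ι U.ι := by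
      rw [hc]
      rfl
    rw [h1]
    ext x
    constructor
    · rintro ⟨z, rfl⟩ ⟨y, hy⟩
      have h2 : pushout.inl U.ι U.ι y = pushout.inr U.ι U.ι (c z) := hy
      exact (hUc _).1 (mem_U U h2) ⟨z, rfl⟩
    · intro hx
      rcases cover U x with ⟨y, hy⟩ | ⟨y, hy⟩
      · exact absurd ⟨y, hy⟩ hx
      · by_cases hyU : y ∈ U
        · exfalso
          apply hx
          refine ⟨y, ?_⟩
          rw [← hy]
          exact inl_U U ⟨y, hyU⟩
        · rw [hUc, not_not] at hyU
          obtain ⟨z, rfl⟩ := hyU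
          exact ⟨z, hy⟩
  refine ⟨X, j1, j2, affMap (Ideal.Quotient.mkₐ R I) ≫ j2, ⟨?_, ?_, fun h => h.elim⟩,
    ⟨?_, ho1, hrange⟩, ho2, hcov⟩
  · -- locally of finite type
    have hft : LocallyOfFiniteType (aff R A).hom := (ft_aff (R := R) (A := A) False).locallyOfFiniteType
    have hloc : IsZariskiLocalAtSource @LocallyOfFiniteType.{0} :=
      HasRingHomProperty.instIsZariskiLocalAtSource (Q := RingHom.FiniteType)
    refine (IsZariskiLocalAtSource.iff_of_openCover (P := @LocallyOfFiniteType.{0})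
      (Scheme.IsLocallyDirected.openCover (span U.ι U.ι))).2 fun i => ?_
    rcases i with _ | (_ | _)
    · have h1 : colimit.ι (span U.ι U.ι) WalkingSpan.zero ≫ X.hom = U.ι ≫ (aff R A).hom := by
        rw [← colimit.w (span U.ι U.ι) WalkingSpan.Hom.fst, Category.assoc]
        change U.ι ≫ (pushout.inl U.ι U.ι ≫ pushout.desc _ _ _) = _
        rw [pushout.inl_desc]
      change LocallyOfFiniteType (colimit.ι (span U.ι U.ι) WalkingSpan.zero ≫ X.hom)
      rw [h1]
      exact IsZariskiLocalAtSource.comp (P := @LocallyOfFiniteType.{0}) hft U.ι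
    · have h1 : pushout.inl U.ι U.ι ≫ X.hom = (aff R A).hom := pushout.inl_desc _ _ _
      change LocallyOfFiniteType (pushout.inl U.ι U.ι ≫ X.hom)
      rw [h1]
      exact hft
    · have h1 : pushout.inr U.ι U.ι ≫ X.hom = (aff R A).hom := pushout.inr_desc _ _ _
      change LocallyOfFiniteType (pushout.inr U.ι U.ι ≫ X.hom)
      rw [h1]
      exact hft
  · -- quasi-compact
    refine (quasiCompact_iff_compactSpace X.hom).2 ?_
    have hA : CompactSpace (aff R A).left :=
      inferInstanceAs (CompactSpace (Spec (CommRingCat.of A)))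
    have h1 : IsCompact (Set.range j1.left) := isCompact_range j1.left.continuous
    have h2 : IsCompact (Set.range j2.left) := isCompact_range j2.left.continuous
    exact ⟨by rw [← hcov]; exact h1.union h2⟩
  · -- the closed immersion
    have h1 : (affMap (Ideal.Quotient.mkₐ R I) ≫ j2).left = c ≫ j2.left := by
      rw [hc]
      rfl
    rw [h1]
    rw [h1] at hrange
    refine IsClosedImmersion.of_isPreimmersion _ ?_
    rw [hrange]
    exact j1.left.isOpenEmbedding.isOpen_range.isClosed_compl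

end Pool.Agent.P8H71.LV
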